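import Mathlib

/-!
# The two exponentiations of nonprincipal ultrafilters never coincide

Let `2, 3, 4, 8, 16, 256, 65536, ...` be the sequence with `t (i + 2) = 2 ^ t i` and let `idx m` be
the number of the interval `[t i, t (i + 1))` that contains `m`. For fixed `n ≥ 2` and large `m` the
index of `m ^ n` is `idx m` or `idx m + 1`, while the index of `n ^ m` is `idx m + 2` or
`idx m + 3`. Hence the index modulo `4` separates the two exponentiations.
-/

set_option autoImplicit false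

namespace Pool.Agent.Results.MP_846ee0_co.NeverEqual

/-- The exponentiation `E₁(p, q)`: the family of all `A` with
`{n : {m : n ^ m ∈ A} ∈ q} ∈ p`. -/
def E₁ (p q : Ultrafilter ℕ+) : Set (Set ℕ+) :=
  {A | {n : ℕ+ | {m : ℕ+ | n ^ (m : ℕ) ∈ A} ∈ q} ∈ p}

/-- The exponentiation `E₂(p, q)`: the family of all `A` with
`{n : {m : m ^ n ∈ A} ∈ q} ∈ p`. -/
def E₂ (p q : Ultrafilter ℕ+) : Set (Set ℕ+) :=
  {A | {n : ℕ+ | {m : ℕ+ | m ^ (n : ℕ) ∈ A} ∈ q} ∈ p}

/-- The index function. -/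
def idx (m : ℕ) : ℕ :=
  if m < 4 then (if m = 3 then 1 else 0) else idx (Nat.log 2 m) + 2
termination_by m
decreasing_by exact Nat.log_lt_self 2 (by omega)

theorem idx_small {m : ℕ} (h : m < 4) : idx m = if m = 3 then 1 else 0 := by
  rw [idx, if_pos h]

theorem idx_big {m : ℕ} (h : 4 ≤ m) : idx m = idx (Nat.log 2 m) + 2 := by
  rw [idx, if_neg (by omega)]

theorem idx_mono : ∀ {x y : ℕ}, x ≤ y → idx x ≤ idx y := by
  suffices H : ∀ y x, x ≤ y → idx x ≤ idx y from fun {x y} h => H y x h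
  intro y
  induction y using Nat.strong_induction_on with
  | _ y ih =>
    intro x hxy
    by_cases hy : y < 4
    · rw [idx_small hy, idx_small (by omega : x < 4)]
      split_ifs <;> omega
    · push Not at hy
      by_cases hx : x < 4
      · rw [idx_small hx, idx_big hy]
        split_ifs <;> omega
      · push Not at hx
        rw [idx_big hx, idx_big hy]
        have := ih (Nat.log 2 y) (Nat.log_lt_self 2 (by omega)) (Nat.log 2 x)
          (Nat.log_mono_right hxy)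
        omega

theorem idx_two_pow {m : ℕ} (h : 2 ≤ m) : idx (2 ^ m) = idx m + 2 := by
  rw [idx_big, Nat.log_pow (by norm_num)]
  calc 4 = 2 ^ 2 := by norm_num
    _ ≤ 2 ^ m := Nat.pow_le_pow_right (by norm_num) h

theorem idx_succ_le : ∀ x : ℕ, idx (x + 1) ≤ idx x + 1 := by
  intro x
  induction x using Nat.strong_induction_on with
  | _ x ih =>
    by_cases hx : x < 3
    · rw [idx_small (by omega : x + 1 < 4), idx_small (by omega : x < 4)]
      split_ifs <;> omega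
    · push Not at hx
      by_cases hx3 : x = 3
      · subst hx3
        have h4 : Nat.log 2 (3 + 1) = 2 := by
          rw [Nat.log_eq_iff] <;> norm_num
        rw [idx_big (by norm_num : 4 ≤ 3 + 1), idx_small (by norm_num : 3 < 4), h4,
          idx_small (by norm_num : 2 < 4)]
        norm_num
      · have h4 : 4 ≤ x := by omega
        rw [idx_big h4, idx_big (by omega : 4 ≤ x + 1)]
        have h1 : Nat.log 2 (x + 1) ≤ Nat.log 2 x + 1 := by
          calc Nat.log 2 (x + 1) ≤ Nat.log 2 (x * 2) := Nat.log_mono_right (by omega)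
            _ = Nat.log 2 x + 1 := Nat.log_mul_base (by norm_num) (by omega)
        have h2 := idx_mono h1
        have h3 := ih (Nat.log 2 x) (Nat.log_lt_self 2 (by omega))
        omega

theorem idx_add_le (c x : ℕ) (h : c ≤ x) (hx : 4 ≤ x) : idx (x + c) ≤ idx x + 1 := by
  rw [idx_big hx, idx_big (by omega : 4 ≤ x + c)]
  have h1 : Nat.log 2 (x + c) ≤ Nat.log 2 x + 1 := by
    calc Nat.log 2 (x + c) ≤ Nat.log 2 (x * 2) := Nat.log_mono_right (by omega)
      _ = Nat.log 2 x + 1 := Nat.log_mul_base (by norm_num) (by omega)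
  have h2 := idx_mono h1
  have h3 := idx_succ_le (Nat.log 2 x)
  omega

/-- `idx (N * x) ≤ idx x + 1` for all large `x`. -/
theorem idx_mul_le (N : ℕ) : ∃ X : ℕ, ∀ x, X ≤ x → idx (N * x) ≤ idx x + 1 := by
  refine ⟨2 ^ (N + 4), fun x hx => ?_⟩
  have hx4 : 4 ≤ x := by
    calc 4 = 2 ^ 2 := by norm_num
      _ ≤ 2 ^ (N + 4) := Nat.pow_le_pow_right (by norm_num) (by omega)
      _ ≤ x := hx
  have hlog : N + 4 ≤ Nat.log 2 x := Nat.le_log_of_pow_le (by norm_num) hx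
  have h1 : N * x ≤ x * 2 ^ N := by
    rw [mul_comm]
    exact Nat.mul_le_mul_left x (Nat.lt_two_pow_self).le
  have h2 : Nat.log 2 (x * 2 ^ N) = Nat.log 2 x + N := by
    clear hlog h1 hx
    induction N with
    | zero => simp
    | succ k ih => rw [pow_succ, ← mul_assoc, Nat.log_mul_base (by norm_num)
        (by positivity), ih, add_assoc]
  calc idx (N * x) ≤ idx (x * 2 ^ N) := idx_mono h1
    _ = idx (Nat.log 2 (x * 2 ^ N)) + 2 := by
        rw [idx_big]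
        calc 4 ≤ x := hx4
          _ ≤ x * 2 ^ N := Nat.le_mul_of_pos_right _ (by positivity)
    _ = idx (Nat.log 2 x + N) + 2 := by rw [h2]
    _ ≤ idx (Nat.log 2 x) + 1 + 2 := by
        have := idx_add_le N (Nat.log 2 x) (by omega) (by omega)
        omega
    _ = idx x + 1 := by rw [idx_big hx4]

/-- For fixed `n` the index of `n ^ m` is `idx m + 2` or `idx m + 3` for all large `m`. -/
theorem idx_pow_left (n : ℕ) (hn : 2 ≤ n) :
    ∃ X : ℕ, ∀ m, X ≤ m → idx m + 2 ≤ idx (n ^ m) ∧ idx (n ^ m) ≤ idx m + 3 := by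
  obtain ⟨X, hX⟩ := idx_mul_le n
  refine ⟨max X 2, fun m hm => ?_⟩
  have hm1 : X ≤ m := (le_max_left _ _).trans hm
  have hm2 : 2 ≤ m := (le_max_right _ _).trans hm
  constructor
  · rw [← idx_two_pow hm2]
    exact idx_mono (Nat.pow_le_pow_left hn m)
  · have h1 : n ^ m ≤ 2 ^ (n * m) := by
      rw [pow_mul]
      exact Nat.pow_le_pow_left (Nat.lt_two_pow_self).le m
    have h2 := idx_mono h1
    rw [idx_two_pow (by nlinarith)] at h2
    have h3 := hX m hm1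
    omega

/-- For fixed `n ≥ 1` the index of `m ^ n` is `idx m` or `idx m + 1` for all large `m`. -/
theorem idx_pow_right (n : ℕ) (hn : 1 ≤ n) :
    ∃ X : ℕ, ∀ m, X ≤ m → idx m ≤ idx (m ^ n) ∧ idx (m ^ n) ≤ idx m + 1 := by
  obtain ⟨X, hX⟩ := idx_mul_le (2 * n)
  refine ⟨max (2 ^ X) 4, fun m hm => ?_⟩
  have hm1 : 2 ^ X ≤ m := (le_max_left _ _).trans hm
  have hm2 : 4 ≤ m := (le_max_right _ _).trans hm
  have hlog : X ≤ Nat.log 2 m := Nat.le_log_of_pow_le (by norm_num) hm1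
  have hlog1 : 1 ≤ Nat.log 2 m := Nat.le_log_of_pow_le (by norm_num) (by omega)
  have hle : m ≤ m ^ n := by
    calc m = m ^ 1 := (pow_one m).symm
      _ ≤ m ^ n := Nat.pow_le_pow_right (by omega) hn
  refine ⟨idx_mono hle, ?_⟩
  have h1 : m ^ n < 2 ^ ((Nat.log 2 m + 1) * n) := by
    rw [pow_mul]
    exact Nat.pow_lt_pow_left (Nat.lt_pow_succ_log_self (by norm_num) m) (by omega)
  have h2 : Nat.log 2 (m ^ n) < (Nat.log 2 m + 1) * n := Nat.log_lt_of_lt_pow (by positivity) h1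
  have h3 : Nat.log 2 (m ^ n) ≤ 2 * n * Nat.log 2 m := by nlinarith
  rw [idx_big (hm2.trans hle), idx_big hm2]
  have h4 := idx_mono h3
  have h5 := hX _ hlog
  omega

theorem ultra_class (q : Ultrafilter ℕ+) : ∃ r < 4, {m : ℕ+ | idx m % 4 = r} ∈ q := by
  by_contra hcon
  push Not at hcon
  have h : ∀ r < 4, {m : ℕ+ | idx m % 4 = r}ᶜ ∈ q := fun r hr =>
    Ultrafilter.compl_mem_iff_notMem.2 (hcon r hr)
  have h4 : ({m : ℕ+ | idx m % 4 = 0}ᶜ ∩ {m : ℕ+ | idx m % 4 = 1}ᶜ ∩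
      {m : ℕ+ | idx m % 4 = 2}ᶜ ∩ {m : ℕ+ | idx m % 4 = 3}ᶜ) ∈ q :=
    Filter.inter_mem (Filter.inter_mem (Filter.inter_mem (h 0 (by norm_num)) (h 1 (by norm_num)))
      (h 2 (by norm_num))) (h 3 (by norm_num))
  obtain ⟨m, hm⟩ := Ultrafilter.nonempty_of_mem h4
  simp only [Set.mem_inter_iff, Set.mem_compl_iff, Set.mem_ofPred_eq] at hm
  omega

theorem tail_mem {p : Ultrafilter ℕ+} (hp : ∀ n, p ≠ pure n) (X : ℕ) :
    {m : ℕ+ | X ≤ (m : ℕ)} ∈ p := by
  by_contra h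
  have h1 := Ultrafilter.compl_mem_iff_notMem.2 h
  have hfin : ({m : ℕ+ | X ≤ (m : ℕ)}ᶜ).Finite := by
    refine Set.Finite.subset (Set.finite_Iio (Nat.succPNat X)) ?_
    intro m hm
    have hm' : ¬ (X ≤ (m : ℕ)) := hm
    refine Set.mem_Iio.2 (PNat.coe_lt_coe _ _ |>.1 ?_)
    rw [Nat.succPNat_coe]
    omega
  obtain ⟨n, -, hn⟩ := Ultrafilter.eq_pure_of_finite_mem hfin h1
  exact hp n hn

/-- **Theorem.** `E₁(p, q) ≠ E₂(p, q)` for all nonprincipal ultrafilters `p, q` on the positive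
integers. -/
theorem result :
    ∀ p q : Ultrafilter ℕ+, (∀ n, p ≠ pure n) → (∀ n, q ≠ pure n) → E₁ p q ≠ E₂ p q := by
  intro p q hp hq heq
  obtain ⟨r, hr, hQ⟩ := ultra_class q
  let A : Set ℕ+ := {x | idx x % 4 = (r + 2) % 4 ∨ idx x % 4 = (r + 3) % 4}
  let B : Set ℕ+ := {x | idx x % 4 = r % 4 ∨ idx x % 4 = (r + 1) % 4}
  have hA : A ∈ E₁ p q := by
    show {n : ℕ+ | {m : ℕ+ | n ^ (m : ℕ) ∈ A} ∈ q} ∈ p
    refine Filter.mem_of_superset (tail_mem hp 2) ?_
    intro n hn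
    obtain ⟨X, hX⟩ := idx_pow_left n hn
    show {m : ℕ+ | n ^ (m : ℕ) ∈ A} ∈ q
    refine Filter.mem_of_superset (Filter.inter_mem hQ (tail_mem hq X)) ?_
    rintro m ⟨hm1, hm2⟩
    have h := hX m hm2
    simp only [Set.mem_ofPred_eq] at hm1
    show idx ((n ^ (m : ℕ) : ℕ+) : ℕ) % 4 = (r + 2) % 4 ∨ idx ((n ^ (m : ℕ) : ℕ+) : ℕ) % 4 = (r + 3) % 4
    rw [PNat.pow_coe]
    omega
  have hB : B ∈ E₂ p q := by
    show {n : ℕ+ | {m : ℕ+ | m ^ (n : ℕ) ∈ B} ∈ q} ∈ p
    refine Filter.mem_of_superset (tail_mem hp 2) ?_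
    intro n hn
    obtain ⟨X, hX⟩ := idx_pow_right n (by have : 2 ≤ (n : ℕ) := hn; omega)
    show {m : ℕ+ | m ^ (n : ℕ) ∈ B} ∈ q
    refine Filter.mem_of_superset (Filter.inter_mem hQ (tail_mem hq X)) ?_
    rintro m ⟨hm1, hm2⟩
    have h := hX m hm2
    simp only [Set.mem_ofPred_eq] at hm1
    show idx ((m ^ (n : ℕ) : ℕ+) : ℕ) % 4 = r % 4 ∨ idx ((m ^ (n : ℕ) : ℕ+) : ℕ) % 4 = (r + 1) % 4
    rw [PNat.pow_coe]
    omega
  rw [heq] at hA
  have hAB : {n : ℕ+ | {m : ℕ+ | m ^ (n : ℕ) ∈ A} ∈ q} ∩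
      {n : ℕ+ | {m : ℕ+ | m ^ (n : ℕ) ∈ B} ∈ q} ∈ p := Filter.inter_mem hA hB
  obtain ⟨n, hn1, hn2⟩ := Ultrafilter.nonempty_of_mem hAB
  obtain ⟨m, hm1, hm2⟩ := Ultrafilter.nonempty_of_mem (Filter.inter_mem hn1 hn2)
  simp only [Set.mem_ofPred_eq, A, B] at hm1 hm2
  omega

end Pool.Agent.Results.MP_846ee0_co.NeverEqual
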